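import Pool.Agent.P.MP_cb63a5_lc.Comb

/-! The Tutte-Berge certificate for maximum matchings. -/

namespace Pool.Agent.P.MP_cb63a5_lc

open SimpleGraph

variable {V : Type} {G : SimpleGraph V}

/-- `lab` marks the vertices of a set `U` by `none` and is constant on components of `G - U`;
the number of odd classes is at least `d + |U|`. -/
def Cert (G : SimpleGraph V) (d : ℕ) (lab : V → Option V) : Prop :=
  (∀ a b, G.Adj a b → lab a ≠ none → lab b ≠ none → lab a = lab b) ∧
    d + {v | lab v = none}.ncard ≤ {k | Odd {v | lab v = some k}.ncard}.ncard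

theorem even_of_closed [Finite V] {μ : V → V} (hμ : ∀ v, μ (μ v) = v) (C : Set V)
    (h1 : ∀ v ∈ C, μ v ∈ C) (h2 : ∀ v ∈ C, μ v ≠ v) : Even C.ncard := by
  classical
  have := Fintype.ofFinite V
  have h := Finset.sum_involution (s := C.toFinset) (f := fun _ => (1 : ZMod 2))
    (fun v _ => μ v) (fun _ _ => rfl) (fun v hv _ => h2 v (by simpa using hv))
    (fun v hv => by simpa using h1 v (by simpa using hv)) (fun v _ => hμ v)
  rw [Finset.sum_const, nsmul_eq_mul, mul_one, ZMod.natCast_eq_zero_iff_even] at h
  rwa [Set.ncard_eq_toFinset_card']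

theorem Cert.le_free [Finite V] {d : ℕ} {lab : V → Option V} (h : Cert G d lab) {μ : V → V}
    (hμ : IsM G μ) : d ≤ free μ := by
  have key : ∀ k, Odd {v | lab v = some k}.ncard →
      ∃ v, lab v = some k ∧ (μ v = v ∨ lab (μ v) = none) := by
    intro k hk
    by_contra hc
    push Not at hc
    refine Nat.not_even_iff_odd.2 hk (even_of_closed (fun v => (hμ v).1) _ (fun v hv => ?_)
      (fun v hv => (hc v hv).1))
    have hv' : lab v = some k := hv
    have := h.1 v (μ v) ((hμ v).2 (hc v hv).1) (by simp [hv']) (hc v hv).2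
    exact this.symm.trans hv'
  choose! r hr using fun k => (show Odd {v | lab v = some k}.ncard → ∃ v, lab v = some k ∧
    (μ v = v ∨ lab (μ v) = none) from key k)
  have h1 : {k | Odd {v | lab v = some k}.ncard}.ncard ≤
      ({v | μ v = v} ∪ {v | lab v = none}).ncard := by
    refine Set.ncard_le_ncard_of_injOn (fun k => μ (r k)) (fun k hk => ?_) (fun a ha b hb hab => ?_)
    · rcases (hr k hk).2 with h | h
      · left; change μ (μ (r k)) = μ (r k); rw [h, h]
      · right; exact h
    · have : r a = r b := by rw [← (hμ (r a)).1, ← (hμ (r b)).1]; exact congrArg μ hab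
      have h2 := (hr a ha).1
      rw [this, (hr b hb).1] at h2
      exact (Option.some.inj h2).symm
  have h2 := Set.ncard_union_le {v | μ v = v} {v | lab v = none}
  have h3 := h.2
  unfold free; omega

/-- `G` with `k` new vertices adjacent to everything. -/
def cone (G : SimpleGraph V) (k : ℕ) : SimpleGraph (V ⊕ Fin k) where
  Adj x y := x ≠ y ∧ ∀ a b, x = .inl a → y = .inl b → G.Adj a b
  symm := ⟨fun _ _ h => ⟨h.1.symm, fun a b h1 h2 => (h.2 b a h2 h1).symm⟩⟩
  loopless := ⟨fun _ h => h.1 rfl⟩

theorem cone_matching [Finite V] {k : ℕ} {M : (cone G k).Subgraph} (hM : M.IsPerfectMatching) :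
    ∃ ν, IsM G ν ∧ free ν ≤ k := by
  obtain ⟨μ, hμ, h⟩ := exists_fun hM.1
  have hne : ∀ x, μ x ≠ x := by
    intro x
    obtain ⟨y, hy, -⟩ := hM.1 (hM.2 x)
    exact ((h _ _).1 hy).2
  let ν : V → V := fun v => (μ (.inl v)).elim id (fun _ => v)
  have hν : ∀ v w, μ (.inl v) = .inl w → ν v = w := fun v w hw => by simp [ν, hw]
  have hν' : ∀ v z, μ (.inl v) = .inr z → ν v = v := fun v w hw => by simp [ν, hw]
  refine ⟨ν, fun v => ?_, ?_⟩
  · cases e : μ (.inl v) with
    | inl w =>
      rw [hν v w e]
      refine ⟨hν _ _ (by rw [← e, (hμ _).1]), fun _ => ((hμ _).2 (hne _)).2 _ _ rfl e⟩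
    | inr z => rw [hν' v z e]; exact ⟨hν' v z e, fun h => absurd rfl h⟩
  · have : {v | ν v = v}.ncard ≤ (Set.range (Sum.inr : Fin k → V ⊕ Fin k)).ncard := by
      refine Set.ncard_le_ncard_of_injOn (fun v => μ (.inl v)) (fun v hv => ?_)
        (fun a _ b _ hab => ?_)
      · cases e : μ (.inl v) with
        | inl w =>
          have : w = v := (hν v w e).symm.trans hv
          exact absurd (this ▸ e) (hne _)
        | inr z => exact ⟨z, rfl⟩
      · have := congrArg μ hab
        simpa [(hμ _).1] using this
    rwa [Set.ncard_range_of_injective Sum.inr_injective, Nat.card_fin] at this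

theorem exists_cert [Finite V] {μ : V → V} (hμ : IsM G μ)
    (hmax : ∀ μ', IsM G μ' → free μ ≤ free μ') : ∃ lab, Cert G (free μ) lab := by
  classical
  have hpar := count_edges (toSub_isMatching hμ) (μ := μ) (fun _ _ => Iff.rfl)
  rcases isEmpty_or_nonempty V with hV | ⟨⟨v0⟩⟩
  · refine ⟨fun _ => none, fun a => isEmptyElim a, ?_⟩
    simp [free, Set.eq_empty_of_isEmpty]
  by_cases hd : free μ ≤ 1
  · refine ⟨fun _ => some v0, fun _ _ _ _ _ => rfl, ?_⟩
    simp only [reduceCtorEq, Set.ofPred_false, Set.ncard_empty, add_zero]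
    rcases Nat.le_one_iff_eq_zero_or_eq_one.1 hd with h | h
    · omega
    · rw [h]
      refine (Set.ncard_pos (Set.toFinite _)).2 ⟨v0, ?_⟩
      simp only [Set.mem_ofPred_eq, Set.ofPred_true, Set.ncard_univ]
      exact ⟨(toSub hμ).edgeSet.ncard, by omega⟩
  obtain ⟨k, hk⟩ : ∃ k, free μ = k + 2 := ⟨free μ - 2, by omega⟩
  have hno : ¬ ∃ M : (cone G k).Subgraph, M.IsPerfectMatching := by
    rintro ⟨M, hM⟩
    obtain ⟨ν, h1, h2⟩ := cone_matching hM
    have := hmax ν h1
    omega
  rw [tutte] at hno
  push Not at hno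
  obtain ⟨u, hu⟩ := hno
  unfold IsTutteViolator at hu
  set K := ((⊤ : (cone G k).Subgraph).deleteVerts u).coe with hK
  have hcard : Nat.card ((⊤ : (cone G k).Subgraph).deleteVerts u).verts + u.ncard =
      Nat.card V + k := by
    have e : ((⊤ : (cone G k).Subgraph).deleteVerts u).verts = uᶜ := by
      ext x; simp
    rw [e, Nat.card_coe_set_eq, add_comm, Set.ncard_add_ncard_compl]
    simp
  have hodd := K.odd_ncard_oddComponents
  have h2 : u.ncard + 2 ≤ K.oddComponents.ncard := by
    rw [Nat.odd_iff, Nat.odd_iff] at hodd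
    omega
  have hKadj : ∀ x y, K.Adj x y ↔ (cone G k).Adj x y := by
    intro x y
    simp [hK]
  have hinr : ∀ z, Sum.inr z ∈ u := by
    intro z
    by_contra hz
    have : Subsingleton K.ConnectedComponent := by
      have key : ∀ x, K.connectedComponentMk x = K.connectedComponentMk ⟨.inr z, trivial, hz⟩ := by
        intro x
        by_cases hx : x = ⟨.inr z, trivial, hz⟩
        · rw [hx]
        · refine ConnectedComponent.connectedComponentMk_eq_of_adj ((hKadj _ _).2 ⟨?_, ?_⟩)
          · exact fun h => hx (Subtype.ext h)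
          · intro a b _ h; cases h
      constructor
      intro a b
      induction a using ConnectedComponent.ind
      induction b using ConnectedComponent.ind
      exact (key _).trans (key _).symm
    have := Set.ncard_le_one_of_subsingleton K.oddComponents
    omega
  have hinl : ∀ x : ((⊤ : (cone G k).Subgraph).deleteVerts u).verts, ∃ v, x.1 = .inl v := by
    rintro ⟨v | z, hx⟩
    · exact ⟨v, rfl⟩
    · exact absurd (hinr z) hx.2
  choose pr hpr using hinl
  have prinj : Function.Injective pr := fun x y h => Subtype.ext (by rw [hpr, hpr, h])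
  let r : K.ConnectedComponent → V := fun c => pr c.out
  have rinj : Function.Injective r := fun c d h => by
    rw [← c.out_eq, ← d.out_eq, prinj h]
  let lab : V → Option V := fun v =>
    if h : Sum.inl v ∈ u then none else some (r (K.connectedComponentMk ⟨.inl v, trivial, h⟩))
  refine ⟨lab, fun a b hab ha hb => ?_, ?_⟩
  · have ha' : Sum.inl a ∉ u := fun h => ha (dif_pos h)
    have hb' : Sum.inl b ∉ u := fun h => hb (dif_pos h)
    simp only [lab, dif_neg ha', dif_neg hb']
    rw [ConnectedComponent.connectedComponentMk_eq_of_adj ((hKadj _ _).2 ⟨?_, ?_⟩)]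
    · simpa using hab.ne
    · rintro a' b' ⟨⟩ ⟨⟩; exact hab
  · have h3 : {v | lab v = none}.ncard + k ≤ u.ncard := by
      have e : (Sum.inl '' {v | lab v = none} ∪ Set.range (Sum.inr : Fin k → V ⊕ Fin k)) ⊆ u := by
        rintro x (⟨v, hv, rfl⟩ | ⟨z, rfl⟩)
        · by_contra h
          simp [lab, h] at hv
        · exact hinr z
      have := Set.ncard_le_ncard e
      rwa [Set.ncard_union_eq (by simp [Set.disjoint_left]),
        Set.ncard_image_of_injective _ Sum.inl_injective,
        Set.ncard_range_of_injective Sum.inr_injective, Nat.card_fin] at this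
    have h4 : K.oddComponents.ncard ≤ {k | Odd {v | lab v = some k}.ncard}.ncard := by
      refine Set.ncard_le_ncard_of_injOn r (fun c hc => ?_) rinj.injOn
      have e : {v | lab v = some (r c)} = pr '' c.supp := by
        ext v
        constructor
        · intro hv
          have hv' : lab v = some (r c) := hv
          have h : Sum.inl v ∉ u := fun h => by simp [lab, h] at hv'
          simp only [lab, dif_neg h, Option.some.injEq] at hv'
          exact ⟨_, rinj hv', Sum.inl_injective (hpr _).symm⟩
        · rintro ⟨x, hx, rfl⟩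
          have h : Sum.inl (pr x) ∉ u := hpr x ▸ x.2.2
          have hx' : K.connectedComponentMk x = c := hx
          simp only [Set.mem_ofPred_eq, lab, dif_neg h, Option.some.injEq, ← hx']
          congr 2
          exact Subtype.ext (hpr x).symm
      rw [Set.mem_ofPred_eq, e, Set.ncard_image_of_injective _ prinj]
      exact hc
    omega

end Pool.Agent.P.MP_cb63a5_lc
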