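import Pool.Agent.P.MP_cb63a5_lc.Defs

/-! A description of the problem by functions: matchings as involutions, cycles as sequences. -/

namespace Pool.Agent.P.MP_cb63a5_lc

open SimpleGraph

variable {V : Type} {G : SimpleGraph V}

/-- A matching, as an involution whose fixed points are the unmatched vertices. -/
def IsM (G : SimpleGraph V) (μ : V → V) : Prop :=
  ∀ v, μ (μ v) = v ∧ (μ v ≠ v → G.Adj v (μ v))

/-- The number of unmatched vertices. -/
noncomputable def free (μ : V → V) : ℕ := {v | μ v = v}.ncard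

def IsAlt (G : SimpleGraph V) (μ : V → V) (N : ℕ) (f : ℕ → V) : Prop :=
  3 ≤ N ∧ Set.InjOn f {t | t < N} ∧ f N = f 0 ∧ (∀ t < N, G.Adj (f t) (f (t + 1))) ∧
    ∀ t < N, ∃ s < N, s(f s, f (s + 1)) = s(f t, μ (f t))

def Comb (G : SimpleGraph V) (L : ℕ) : Prop :=
  ∃ μ, IsM G μ ∧ (∀ μ', IsM G μ' → free μ ≤ free μ') ∧ ∃ N f, N ≤ L ∧ IsAlt G μ N f

theorem two_mul_ncard [Finite V] (E : Set (Sym2 V)) (h1 : ∀ e ∈ E, ¬ e.IsDiag)
    (h2 : ∀ e ∈ E, ∀ e' ∈ E, ∀ v, v ∈ e → v ∈ e' → e = e') :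
    2 * E.ncard = {v | ∃ e ∈ E, v ∈ e}.ncard := by
  classical
  have := Fintype.ofFinite V
  have hs : {v | ∃ e ∈ E, v ∈ e} = ↑(E.toFinset.biUnion Sym2.toFinset) := by
    ext v; simp
  rw [hs, Set.ncard_coe_finset, Finset.card_biUnion, Set.ncard_eq_toFinset_card',
    Finset.sum_const_nat (m := 2), mul_comm]
  · intro e he
    exact Sym2.card_toFinset_of_not_isDiag e (h1 e (by simpa using he))
  · intro e he e' he' hne
    rw [Function.onFun, Finset.disjoint_left]
    intro v hv hv'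
    exact hne (h2 e (by simpa using he) e' (by simpa using he') v (by simpa using hv)
      (by simpa using hv'))

/-- The subgraph of an involution. -/
def toSub {μ : V → V} (h : IsM G μ) : G.Subgraph where
  verts := {v | μ v ≠ v}
  Adj u v := μ u = v ∧ μ u ≠ u
  adj_sub := by rintro u v ⟨rfl, h2⟩; exact (h u).2 h2
  edge_vert := fun h => h.2
  symm := ⟨by
    rintro u v ⟨rfl, h2⟩
    exact ⟨(h u).1, by rw [(h u).1]; exact h2.symm⟩⟩

theorem toSub_isMatching {μ : V → V} (h : IsM G μ) : (toSub h).IsMatching :=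
  fun v hv => ⟨μ v, ⟨rfl, hv⟩, fun _ hw => hw.1.symm⟩

theorem exists_fun {M : G.Subgraph} (hM : M.IsMatching) :
    ∃ μ, IsM G μ ∧ ∀ u v, M.Adj u v ↔ μ u = v ∧ μ u ≠ u := by
  classical
  let μ : V → V := fun v => if h : v ∈ M.verts then (hM h).choose else v
  have key : ∀ u v, M.Adj u v ↔ μ u = v ∧ μ u ≠ u := by
    intro u v
    by_cases hu : u ∈ M.verts
    · have h1 : μ u = (hM hu).choose := dif_pos hu
      have h2 := (hM hu).choose_spec
      rw [← h1] at h2
      exact ⟨fun h => ⟨(h2.2 v h).symm, h2.1.ne.symm⟩, fun h => h.1 ▸ h2.1⟩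
    · have h1 : μ u = u := dif_neg hu
      exact ⟨fun h => absurd (M.edge_vert h) hu, fun h => absurd h1 h.2⟩
  refine ⟨μ, fun v => ?_, key⟩
  by_cases hv : μ v = v
  · exact ⟨by rw [hv, hv], fun h => absurd hv h⟩
  · have := (key v (μ v)).2 ⟨rfl, hv⟩
    exact ⟨((key _ _).1 this.symm).1, fun _ => M.adj_sub this⟩

theorem edge_unique {M : G.Subgraph} (hM : M.IsMatching) :
    ∀ e ∈ M.edgeSet, ∀ e' ∈ M.edgeSet, ∀ v, v ∈ e → v ∈ e' → e = e' := by
  intro e he e' he' v hv hv'
  obtain ⟨a, rfl⟩ := Sym2.mem_iff_exists.1 hv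
  obtain ⟨b, rfl⟩ := Sym2.mem_iff_exists.1 hv'
  have : a = b := hM.eq_of_adj_left he he'
  rw [this]

theorem count_edges [Finite V] {M : G.Subgraph} (hM : M.IsMatching) {μ : V → V}
    (h : ∀ u v, M.Adj u v ↔ μ u = v ∧ μ u ≠ u) :
    2 * M.edgeSet.ncard + free μ = Nat.card V := by
  rw [two_mul_ncard _ (fun e he => G.not_isDiag_of_mem_edgeSet (M.edgeSet_subset he))
    (edge_unique hM)]
  have : {v | ∃ e ∈ M.edgeSet, v ∈ e} = {v | μ v = v}ᶜ := by
    ext v
    constructor
    · rintro ⟨e, he, hv⟩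
      obtain ⟨a, rfl⟩ := Sym2.mem_iff_exists.1 hv
      exact ((h _ _).1 he).2
    · intro hv
      exact ⟨s(v, μ v), (h _ _).2 ⟨rfl, hv⟩, Sym2.mem_mk_left _ _⟩
  rw [this, free, add_comm, Set.ncard_add_ncard_compl]

theorem exists_walk (f : ℕ → V) (N : ℕ) (h : ∀ t < N, G.Adj (f t) (f (t + 1))) :
    ∃ p : G.Walk (f 0) (f N), p.length = N ∧ ∀ t ≤ N, p.getVert t = f t := by
  induction N generalizing f with
  | zero => exact ⟨.nil, rfl, fun t ht => by rw [Nat.le_zero.1 ht]; rfl⟩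
  | succ N ih =>
    obtain ⟨p, h1, h2⟩ := ih (fun t => f (t + 1)) (fun t ht => h _ (by omega))
    refine ⟨.cons (h 0 (by omega)) p, by simp [h1], fun t ht => ?_⟩
    rcases t with _ | t
    · rfl
    · rw [Walk.getVert_cons_succ]; exact h2 t (by omega)

theorem alt_count [Finite V] {M : G.Subgraph} (hM : M.IsMatching) {μ : V → V}
    (h : ∀ u v, M.Adj u v ↔ μ u = v ∧ μ u ≠ u) {v : V} (C : G.Walk v v)
    (hinj : Set.InjOn C.getVert {t | t < C.length}) :
    2 * (C.edgeSet ∩ M.edgeSet).ncard = C.length ↔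
      ∀ t < C.length, ∃ s < C.length,
        s(C.getVert s, C.getVert (s + 1)) = s(C.getVert t, μ (C.getVert t)) := by
  rw [two_mul_ncard _ (fun e he => G.not_isDiag_of_mem_edgeSet (M.edgeSet_subset he.2))
    (fun e he e' he' => edge_unique hM e he.2 e' he'.2)]
  have hc : (C.getVert '' {t | t < C.length}).ncard = C.length := by
    rw [hinj.ncard_image]
    exact Set.ncard_Iio_nat _
  have hsub : {w | ∃ e ∈ C.edgeSet ∩ M.edgeSet, w ∈ e} ⊆ C.getVert '' {t | t < C.length} := by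
    rintro w ⟨e, he, hw⟩
    obtain ⟨a, rfl⟩ := Sym2.mem_iff_exists.1 hw
    obtain ⟨i, hi, hi'⟩ := (Walk.mk_mem_edges_iff_exists C).1 he.1
    rcases Sym2.eq_iff.1 hi' with ⟨h1, -⟩ | ⟨-, h1⟩
    · exact ⟨i, hi, h1⟩
    · by_cases hl : i + 1 < C.length
      · exact ⟨i + 1, hl, h1⟩
      · refine ⟨0, by simp only [Set.mem_ofPred_eq]; omega, ?_⟩
        rw [← h1, show i + 1 = C.length by omega]; simp
  constructor
  · intro hn t ht
    have := Set.eq_of_subset_of_ncard_le hsub (by omega)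
    have hm : C.getVert t ∈ {w | ∃ e ∈ C.edgeSet ∩ M.edgeSet, w ∈ e} := this ▸ ⟨t, ht, rfl⟩
    obtain ⟨e, he, hw⟩ := hm
    obtain ⟨a, rfl⟩ := Sym2.mem_iff_exists.1 hw
    rw [((h _ _).1 he.2).1]
    exact (Walk.mk_mem_edges_iff_exists C).1 he.1
  · intro hn
    rw [← hc]
    congr 1
    refine hsub.antisymm ?_
    rintro _ ⟨t, ht, rfl⟩
    obtain ⟨s, hs, hs'⟩ := hn t ht
    refine ⟨_, ⟨(Walk.mk_mem_edges_iff_exists C).2 ⟨s, hs, hs'⟩, (h _ _).2 ⟨rfl, ?_⟩⟩,
      Sym2.mem_mk_left _ _⟩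
    intro hfix
    have := (C.adj_getVert_succ hs).ne
    rw [hfix] at hs'
    rcases Sym2.eq_iff.1 hs' with ⟨h1, h2⟩ | ⟨h1, h2⟩ <;> exact this (h1.trans h2.symm)

theorem yes_iff_comb [Finite V] (L : ℕ) : HasShortAltCycle G L ↔ Comb G L := by
  constructor
  · rintro ⟨M, hM, hmax, v, C, hC, -, hL, hn⟩
    obtain ⟨μ, hμ, h⟩ := exists_fun hM
    have hinj : Set.InjOn C.getVert {t | t < C.length} :=
      hC.getVert_injOn'.mono fun t ht => by simp only [Set.mem_ofPred_eq] at ht ⊢; omega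
    refine ⟨μ, hμ, fun μ' hμ' => ?_, C.length, C.getVert, hL, hC.three_le_length, hinj, by simp,
      fun t ht => C.adj_getVert_succ ht, (alt_count hM h C hinj).1 hn⟩
    have h1 := count_edges hM h
    have h2 := count_edges (toSub_isMatching hμ') (μ := μ') (fun _ _ => Iff.rfl)
    have h3 := hmax _ (toSub_isMatching hμ')
    omega
  · rintro ⟨μ, hμ, hmax, N, f, hL, h3, hinj, hN, hadj, halt⟩
    obtain ⟨p, hp1, hp2⟩ := exists_walk f N hadj
    let C : G.Walk (f 0) (f 0) := p.copy rfl hN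
    have hC1 : C.length = N := by simp [C, hp1]
    have hC2 : ∀ t ≤ N, C.getVert t = f t := fun t ht => by simp [C, hp2 t ht]
    have hinj' : Set.InjOn C.getVert {t | t < C.length} := by
      intro a ha b hb hab
      rw [Set.mem_ofPred_eq, hC1] at ha hb
      rw [hC2 a ha.le, hC2 b hb.le] at hab
      exact hinj ha hb hab
    have hn : 2 * (C.edgeSet ∩ (toSub hμ).edgeSet).ncard = C.length := by
      refine (alt_count (toSub_isMatching hμ) (μ := μ) (fun _ _ => Iff.rfl) C hinj').2 ?_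
      rw [hC1]
      intro t ht
      obtain ⟨s, hs, hs'⟩ := halt t ht
      exact ⟨s, hs, by rw [hC2 s hs.le, hC2 (s + 1) hs, hC2 t ht.le, hs']⟩
    refine ⟨toSub hμ, toSub_isMatching hμ, fun M' hM' => ?_, f 0, C, ?_, hn ▸ even_two_mul _,
      by omega, hn⟩
    · obtain ⟨μ', hμ', h'⟩ := exists_fun hM'
      have h1 := count_edges hM' h'
      have h2 := count_edges (toSub_isMatching hμ) (μ := μ) (fun _ _ => Iff.rfl)
      have h3 := hmax _ hμ'
      omega
    · rw [Walk.isCycle_iff_isPath_tail_and_le_length]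
      refine ⟨?_, by omega⟩
      have hnil : ¬ C.Nil := by rw [Walk.not_nil_iff_lt_length]; omega
      rw [← Walk.IsPath.getVert_injOn_iff]
      intro a ha b hb hab
      have hl := Walk.length_tail_add_one hnil
      rw [Set.mem_ofPred_eq] at ha hb
      rw [Walk.getVert_tail, Walk.getVert_tail, hC2 _ (by omega), hC2 _ (by omega)] at hab
      by_cases ha' : a + 1 = N <;> by_cases hb' : b + 1 = N
      · omega
      · rw [ha', hN] at hab
        have := hinj (show 0 < N by omega) (show b + 1 < N by omega) hab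
        omega
      · rw [hb', hN] at hab
        have := hinj (show a + 1 < N by omega) (show 0 < N by omega) hab
        omega
      · have := hinj (show a + 1 < N by omega) (show b + 1 < N by omega) hab
        omega

end Pool.Agent.P.MP_cb63a5_lc
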