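import Pool.Prelude.Def_F_458e953d

namespace Pool.Agent.P.MP_cb63a5_lc

/-- Some maximum matching `M` and some even cycle `C` satisfy `|C| ≤ L` and `|C ∩ M| = |C| / 2`. -/
def HasShortAltCycle {V : Type} (G : SimpleGraph V) (L : ℕ) : Prop :=
  ∃ M : G.Subgraph, M.IsMatching ∧
    (∀ M' : G.Subgraph, M'.IsMatching → M'.edgeSet.ncard ≤ M.edgeSet.ncard) ∧
    ∃ (v : V) (C : G.Walk v v), C.IsCycle ∧ Even C.length ∧ C.length ≤ L ∧
      2 * (C.edgeSet ∩ M.edgeSet).ncard = C.length

open Classical in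
/-- The adjacency matrix, as a list of rows. -/
noncomputable def adjMatrix {n : ℕ} (G : SimpleGraph (Fin n)) : List (List Bool) :=
  List.ofFn fun i => List.ofFn fun j => decide (G.Adj i j)

open Classical in
/-- The language of the shortest alternating cycle problem. -/
noncomputable def SAC : N68a2faeb.DecisionProblem := fun x =>
  decide (∃ (n : ℕ) (G : SimpleGraph (Fin n)) (L : ℕ),
    x = N487b59b3.bitEncode (adjMatrix G, L) ∧ 0 < L ∧ L ≤ n ∧ HasShortAltCycle G L)

end Pool.Agent.P.MP_cb63a5_lc
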