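import Mathlib

/-! The combinatorial core of the reduction from satisfiability. -/

namespace Pool.Agent.P.MP_cb63a5_lc

/-- Vertices `(i, p, s, j)`: variable `i`, position `p`, sign `s`, depth `j`. -/
abbrev W := ℕ × ℕ × Bool × ℕ

set_option linter.unusedVariables false

section

variable (n m H : ℕ) (occ : ℕ → Bool → ℕ → Prop)

def Valid (v : W) : Prop :=
  (v.2.2.2 = 0 ∧ v.1 < n ∧ v.2.1 < 2 * m + 2 ∧ (v.2.1 = 0 ∨ v.2.1 = 2 * m + 1 → v.2.2.1 = false)) ∨
  (1 ≤ v.2.2.2 ∧ v.2.2.2 ≤ H ∧ v.1 < n ∧ 1 ≤ v.2.1 ∧ v.2.1 ≤ 2 * m ∧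
    occ ((v.2.1 - 1) / 2) v.2.2.1 v.1) ∨
  (v.2.2.2 = H + 1 ∧ v.1 = 0 ∧ 1 ≤ v.2.1 ∧ v.2.1 ≤ 2 * m ∧ v.2.2.1 = false)

def Rel (u v : W) : Prop :=
  (u.2.2.2 = 0 ∧ v.2.2.2 = 0 ∧ v.1 = u.1 ∧ v.2.1 = u.2.1 + 1 ∧
    (u.2.2.1 = v.2.2.1 ∨ u.2.1 = 0 ∨ v.2.1 = 2 * m + 1)) ∨
  (u.2.2.2 = 0 ∧ v.2.2.2 = 0 ∧ u.2.1 = 2 * m + 1 ∧ v.2.1 = 0 ∧
    (v.1 = u.1 + 1 ∨ (u.1 + 1 = n ∧ v.1 = 0))) ∨
  (v.1 = u.1 ∧ v.2.1 = u.2.1 ∧ v.2.2.1 = u.2.2.1 ∧ v.2.2.2 = u.2.2.2 + 1 ∧ u.2.2.2 < H) ∨
  (u.2.2.2 = H ∧ v.2.2.2 = H + 1 ∧ v.2.1 = u.2.1)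

def Ad (u v : W) : Prop := Rel n m H u v ∨ Rel n m H v u

/-- A perfect matching of the gadget graph. -/
def PM (μ : W → W) : Prop :=
  ∀ v, Valid n m H occ v → Valid n m H occ (μ v) ∧ μ (μ v) = v ∧ Ad n m H v (μ v)

variable {n m H occ}

theorem Ad.symm {u v : W} (h : Ad n m H u v) : Ad n m H v u := Or.symm h

theorem Ad.irrefl (u : W) : ¬ Ad n m H u u := by
  simp only [Ad, Rel]; omega

theorem nbr_heavy {i p j : ℕ} {s : Bool} {a : W} (h1 : 1 ≤ j) (h2 : j ≤ H)
    (hv : Valid n m H occ a) (ha : Ad n m H (i, p, s, j) a) :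
    a = (i, p, s, j - 1) ∨ (j < H ∧ a = (i, p, s, j + 1)) ∨ (j = H ∧ a = (0, p, false, H + 1)) := by
  rcases a with ⟨i', p', s', j'⟩
  simp only [Valid, Ad, Rel, Prod.mk.injEq] at *
  grind (splits := 60)

theorem nbr_top {p : ℕ} {a : W} (hH : 1 ≤ H)
    (hv : Valid n m H occ a) (ha : Ad n m H (0, p, false, H + 1) a) :
    a.2.1 = p ∧ a.2.2.2 = H := by
  rcases a with ⟨i', p', s', j'⟩
  simp only [Valid, Ad, Rel] at *
  grind (splits := 60)

theorem nbr_route {i p : ℕ} {s : Bool} {a : W} (hH : 1 ≤ H) (h1 : 1 ≤ p) (h2 : p ≤ 2 * m)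
    (hv : Valid n m H occ a) (ha : Ad n m H (i, p, s, 0) a) :
    a = (i, p - 1, if p = 1 then false else s, 0) ∨
    a = (i, p + 1, if p = 2 * m then false else s, 0) ∨ a = (i, p, s, 1) := by
  rcases a with ⟨i', p', s', j'⟩
  simp only [Valid, Ad, Rel, Prod.mk.injEq] at *
  grind (splits := 60)

theorem nbr_p {i : ℕ} {a : W} (hH : 1 ≤ H) (hm : 1 ≤ m) (hi : i < n)
    (hv : Valid n m H occ a) (ha : Ad n m H (i, 0, false, 0) a) :
    a = (i, 1, true, 0) ∨ a = (i, 1, false, 0) ∨
      a = (if i = 0 then n - 1 else i - 1, 2 * m + 1, false, 0) := by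
  rcases a with ⟨i', p', s', j'⟩
  simp only [Valid, Ad, Rel, Prod.mk.injEq] at *
  grind (splits := 60)

theorem nbr_q {i : ℕ} {a : W} (hH : 1 ≤ H) (hm : 1 ≤ m) (hi : i < n)
    (hv : Valid n m H occ a) (ha : Ad n m H (i, 2 * m + 1, false, 0) a) :
    a = (i, 2 * m, true, 0) ∨ a = (i, 2 * m, false, 0) ∨
      a = (if i + 1 = n then 0 else i + 1, 0, false, 0) := by
  rcases a with ⟨i', p', s', j'⟩
  simp only [Valid, Ad, Rel, Prod.mk.injEq] at *
  grind (splits := 60)

theorem sound_core (hH : 1 ≤ H) (hHe : H % 2 = 0) (hm : 1 ≤ m)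
    (htaut : ∀ i < n, ∃ c < m, ∀ s i', occ c s i' → i' = i)
    {μ : W → W} (hμ : PM n m H occ μ) (S : W → Prop)
    (h1 : ∀ v, S v → Valid n m H occ v) (h2 : ∀ v, S v → S (μ v))
    (h3 : ∀ v, S v → ∃ a b, S a ∧ S b ∧ a ≠ b ∧ Ad n m H v a ∧ Ad n m H v b)
    (h4 : ∃ v, S v) (h5 : ∀ i p s, ¬ ∀ j, 1 ≤ j → j ≤ H → S (i, p, s, j)) :
    ∃ τ : ℕ → Bool, ∀ c < m, ∃ s i, occ c s i ∧ τ i = s := by
  have heavy : ∀ i p s j, 1 ≤ j → j ≤ H → ¬ S (i, p, s, j) := by
    intro i p s j hj1 hj2 hS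
    have st : ∀ j, 1 ≤ j → j ≤ H → S (i, p, s, j) →
        S (i, p, s, j - 1) ∧ (j < H → S (i, p, s, j + 1)) := by
      intro j hj1 hj2 hS
      obtain ⟨a, b, ha, hb, hab, hva, hvb⟩ := h3 _ hS
      have e1 := nbr_heavy hj1 hj2 (h1 _ ha) hva
      have e2 := nbr_heavy hj1 hj2 (h1 _ hb) hvb
      grind (splits := 60)
    have up : ∀ k, j ≤ k → k ≤ H → S (i, p, s, k) := by
      intro k hk
      induction k, hk using Nat.le_induction with
      | base => intro _; exact hS
      | succ k hk ih => intro hk'; exact (st k (by omega) (by omega) (ih (by omega))).2 hk'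
    have down : ∀ d, d < H → S (i, p, s, H - d) := by
      intro d
      induction d with
      | zero => intro _; exact up H hj2 le_rfl
      | succ d ih => intro hd; exact (st (H - d) (by omega) (by omega) (ih (by omega))).1
    refine h5 i p s fun k hk1 hk2 => ?_
    have := down (H - k) (by omega)
    rwa [show H - (H - k) = k by omega] at this
  have top : ∀ p, ¬ S (0, p, false, H + 1) := by
    intro p hS
    obtain ⟨⟨i, p', s, j⟩, b, ha, -, -, hva, -⟩ := h3 _ hS
    obtain ⟨-, e⟩ := nbr_top hH (h1 _ ha) hva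
    simp only at e
    exact heavy i p' s j (by omega) (by omega) ha
  have route1 : ∀ i p s, 1 ≤ p → p ≤ 2 * m → S (i, p, s, 0) →
      S (i, p - 1, if p = 1 then false else s, 0) ∧
      S (i, p + 1, if p = 2 * m then false else s, 0) := by
    intro i p s hp1 hp2 hS
    obtain ⟨a, b, ha, hb, hab, hva, hvb⟩ := h3 _ hS
    have e1 := nbr_route hH hp1 hp2 (h1 _ ha) hva
    have e2 := nbr_route hH hp1 hp2 (h1 _ hb) hvb
    have := heavy i p s 1 le_rfl hH
    grind (splits := 60)
  have route : ∀ i p s, 1 ≤ p → p ≤ 2 * m → S (i, p, s, 0) →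
      ∀ k, 1 ≤ k → k ≤ 2 * m → S (i, k, s, 0) := by
    intro i p s hp1 hp2 hS
    have up : ∀ k, p ≤ k → k ≤ 2 * m → S (i, k, s, 0) := by
      intro k hk
      induction k, hk using Nat.le_induction with
      | base => intro _; exact hS
      | succ k hk ih =>
        intro hk'
        have := (route1 i k s (by omega) (by omega) (ih (by omega))).2
        rwa [if_neg (by omega)] at this
    have down : ∀ d, d < 2 * m → S (i, 2 * m - d, s, 0) := by
      intro d
      induction d with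
      | zero => intro _; exact up _ hp2 le_rfl
      | succ d ih =>
        intro hd
        have := (route1 i (2 * m - d) s (by omega) (by omega) (ih (by omega))).1
        rwa [if_neg (by omega)] at this
    intro k hk1 hk2
    have := down (2 * m - k) (by omega)
    rwa [show 2 * m - (2 * m - k) = k by omega] at this
  have clause : ∀ c < m, ∃ s i, occ c s i ∧ i < n ∧ ¬ S (i, 1, s, 0) := by
    intro c hc
    have hw : Valid n m H occ (0, 2 * c + 1, false, H + 1) := by
      simp only [Valid]; right; right; simp; omega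
    obtain ⟨a1, a2, a3⟩ := hμ _ hw
    obtain ⟨e1, e2⟩ := nbr_top hH a1 a3
    generalize μ (0, 2 * c + 1, false, H + 1) = a at a1 a2 a3 e1 e2
    rcases a with ⟨i, p, s, j⟩
    simp only at e1 e2
    subst e1 e2
    have hocc : i < n ∧ occ c s i := by
      simp only [Valid] at a1
      rw [show (2 * c + 1 - 1) / 2 = c by omega] at a1
      grind (splits := 60)
    have hval : ∀ k, 1 ≤ k → k ≤ j → Valid n m j occ (i, 2 * c + 1, s, k) := by
      intro k hk1 hk2
      simp only [Valid]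
      rw [show (2 * c + 1 - 1) / 2 = c by omega]
      grind (splits := 60)
    have dn : ∀ d, 2 * d < j → μ (i, 2 * c + 1, s, j - 2 * d) ≠ (i, 2 * c + 1, s, j - 2 * d - 1) := by
      intro d
      induction d with
      | zero => intro _; simp only [Nat.mul_zero, Nat.sub_zero, a2, ne_eq, Prod.mk.injEq]; omega
      | succ d ih =>
        intro hd
        have ih := ih (by omega)
        obtain ⟨b1, b2, b3⟩ := hμ _ (hval (j - 2 * d - 1) (by omega) (by omega))
        have e := nbr_heavy (by omega) (by omega) b1 b3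
        rcases e with e | ⟨-, e⟩ | ⟨e, -⟩
        · rw [e] at b2
          rw [show j - 2 * (d + 1) = j - 2 * d - 1 - 1 by omega, b2]
          simp only [ne_eq, Prod.mk.injEq]; omega
        · rw [e, show j - 2 * d - 1 + 1 = j - 2 * d by omega] at b2
          exact absurd b2 ih
        · omega
    have d2 := dn (j / 2 - 1) (by omega)
    rw [show j - 2 * (j / 2 - 1) = 2 by omega] at d2
    obtain ⟨b1, b2, b3⟩ := hμ _ (hval 1 le_rfl hH)
    have e := nbr_heavy le_rfl hH b1 b3
    refine ⟨s, i, hocc.2, hocc.1, fun hS => ?_⟩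
    have hS' := h2 _ (route i 1 s le_rfl (by omega) hS (2 * c + 1) (by omega) (by omega))
    rcases e with e | ⟨-, e⟩ | ⟨e, -⟩
    · rw [e] at b2
      rw [b2] at hS'
      exact heavy _ _ _ 1 le_rfl hH hS'
    · rw [e] at b2
      exact d2 b2
    · omega
  have notboth : ∀ i < n, ¬ (S (i, 1, true, 0) ∧ S (i, 1, false, 0)) := by
    intro i hi
    obtain ⟨c, hc, hc'⟩ := htaut i hi
    obtain ⟨s, i', h6, -, h7⟩ := clause c hc
    rw [hc' s i' h6] at h7
    cases s <;> tauto
  have fromp : ∀ i < n, S (i, 0, false, 0) → S (i, 1, true, 0) ∨ S (i, 1, false, 0) := by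
    intro i hi hS
    obtain ⟨a, b, ha, hb, hab, hva, hvb⟩ := h3 _ hS
    have e1 := nbr_p hH hm hi (h1 _ ha) hva
    have e2 := nbr_p hH hm hi (h1 _ hb) hvb
    grind (splits := 60)
  have fromq : ∀ i < n, S (i, 2 * m + 1, false, 0) →
      S (if i + 1 = n then 0 else i + 1, 0, false, 0) := by
    intro i hi hS
    obtain ⟨a, b, ha, hb, hab, hva, hvb⟩ := h3 _ hS
    have e1 := nbr_q hH hm hi (h1 _ ha) hva
    have e2 := nbr_q hH hm hi (h1 _ hb) hvb
    have e3 := notboth i hi
    have e4 := fun h => route i (2 * m) true (by omega) le_rfl h 1 le_rfl (by omega)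
    have e5 := fun h => route i (2 * m) false (by omega) le_rfl h 1 le_rfl (by omega)
    grind (splits := 60)
  have toq : ∀ i s, S (i, 1, s, 0) → S (i, 2 * m + 1, false, 0) := by
    intro i s hS
    have := (route1 i (2 * m) s (by omega) le_rfl
      (route i 1 s le_rfl (by omega) hS _ (by omega) le_rfl)).2
    rwa [if_pos rfl] at this
  have nxt : ∀ i < n, S (i, 0, false, 0) → S (if i + 1 = n then 0 else i + 1, 0, false, 0) :=
    fun i hi hS => fromq i hi ((fromp i hi hS).elim (toq i _) (toq i _))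
  have chain : ∀ i, S (i, 0, false, 0) → ∀ k, i ≤ k → k < n → S (k, 0, false, 0) := by
    intro i hS k hk
    induction k, hk using Nat.le_induction with
    | base => intro _; exact hS
    | succ k hk ih =>
      intro hk'
      have := nxt k (by omega) (ih (by omega))
      rwa [if_neg (by omega)] at this
  have start : ∃ i < n, S (i, 0, false, 0) := by
    obtain ⟨⟨i, p, s, j⟩, hS⟩ := h4
    have hv := h1 _ hS
    simp only [Valid] at hv
    rcases hv with ⟨rfl, hi, hp, hs⟩ | ⟨a1, a2, -⟩ | ⟨rfl, rfl, -, -, rfl⟩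
    · have hq : S (i, 2 * m + 1, false, 0) → ∃ i < n, S (i, 0, false, 0) :=
        fun h => ⟨_, by split_ifs <;> omega, fromq i hi h⟩
      by_cases hp0 : p = 0
      · rw [hs (Or.inl hp0), hp0] at hS; exact ⟨i, hi, hS⟩
      · by_cases hp1 : p = 2 * m + 1
        · rw [hs (Or.inr hp1), hp1] at hS; exact hq hS
        · exact hq (toq i s (route i p s (by omega) (by omega) hS 1 le_rfl (by omega)))
    · exact absurd hS (heavy _ _ _ _ a1 a2)
    · exact absurd hS (top _)
  have allp : ∀ i < n, S (i, 0, false, 0) := by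
    obtain ⟨i, hi, hS⟩ := start
    have := nxt (n - 1) (by omega) (chain i hS _ (by omega) (by omega))
    rw [if_pos (by omega)] at this
    exact fun k hk => chain 0 this k (by omega) hk
  classical
  refine ⟨fun i => decide (¬ S (i, 1, true, 0)), fun c hc => ?_⟩
  obtain ⟨s, i, h6, hi, h7⟩ := clause c hc
  refine ⟨s, i, h6, ?_⟩
  have := fromp i hi (allp i hi)
  cases s <;> simp <;> tauto

open Classical in
/-- Extension of a pairing `π` of the taken vertices of depth zero to a perfect matching. -/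
noncomputable def extend (m H : ℕ) (T : ℕ → Bool → Prop) (π : W → W) (ℓ : ℕ → Bool × ℕ) (v : W) : W :=
  if v.2.2.2 = 0 ∧ (v.2.1 = 0 ∨ v.2.1 = 2 * m + 1 ∨ T v.1 v.2.2.1) then π v
  else if v.2.2.2 = H + 1 then ((ℓ ((v.2.1 - 1) / 2)).2, v.2.1, (ℓ ((v.2.1 - 1) / 2)).1, H)
  else if ℓ ((v.2.1 - 1) / 2) = (v.2.2.1, v.1) then
    if v.2.2.2 = H then (0, v.2.1, false, H + 1)
    else if v.2.2.2 % 2 = 0 then (v.1, v.2.1, v.2.2.1, v.2.2.2 + 1)
    else (v.1, v.2.1, v.2.2.1, v.2.2.2 - 1)
  else if v.2.2.2 = 0 then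
    if v.2.1 % 2 = 0 then (v.1, v.2.1 - 1, v.2.2.1, 0) else (v.1, v.2.1 + 1, v.2.2.1, 0)
  else if v.2.2.2 % 2 = 0 then (v.1, v.2.1, v.2.2.1, v.2.2.2 - 1)
  else (v.1, v.2.1, v.2.2.1, v.2.2.2 + 1)

theorem extend_pm (hH : 1 ≤ H) (hHe : H % 2 = 0) (T : ℕ → Bool → Prop) (π : W → W)
    (ℓ : ℕ → Bool × ℕ) (hℓ : ∀ c < m, occ c (ℓ c).1 (ℓ c).2 ∧ (ℓ c).2 < n ∧ ¬ T (ℓ c).2 (ℓ c).1)
    (hπ : ∀ v, Valid n m H occ v → v.2.2.2 = 0 → (v.2.1 = 0 ∨ v.2.1 = 2 * m + 1 ∨ T v.1 v.2.2.1) →
      Valid n m H occ (π v) ∧ (π v).2.2.2 = 0 ∧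
        ((π v).2.1 = 0 ∨ (π v).2.1 = 2 * m + 1 ∨ T (π v).1 (π v).2.2.1) ∧ π (π v) = v ∧
        Ad n m H v (π v)) :
    PM n m H occ (extend m H T π ℓ) := by
  rintro ⟨i, p, s, j⟩ hv
  by_cases h0 : j = 0 ∧ (p = 0 ∨ p = 2 * m + 1 ∨ T i s)
  · obtain ⟨a1, a2, a3, a4, a5⟩ := hπ _ hv h0.1 h0.2
    have e : extend m H T π ℓ (i, p, s, j) = π (i, p, s, j) := if_pos h0
    rw [e]
    exact ⟨a1, (if_pos ⟨a2, a3⟩).trans a4, a5⟩
  have hp : 1 ≤ p ∧ p ≤ 2 * m := by simp only [Valid] at hv; grind (splits := 60)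
  obtain ⟨l1, l2, l3⟩ := hℓ ((p - 1) / 2) (by omega)
  by_cases h1 : j = H + 1
  · have e : extend m H T π ℓ (i, p, s, j) = ((ℓ ((p - 1) / 2)).2, p, (ℓ ((p - 1) / 2)).1, H) := by
      simp only [extend]; rw [if_neg h0, if_pos h1]
    rw [e]
    refine ⟨?_, ?_, ?_⟩
    · simp only [Valid]; grind (splits := 60)
    · simp only [extend]
      rw [if_neg (by omega), if_neg (by omega), if_pos trivial, if_pos trivial]
      simp only [Valid] at hv; grind (splits := 60)
    · simp only [Ad, Rel]; grind (splits := 60)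
  by_cases h2 : ℓ ((p - 1) / 2) = (s, i)
  · rw [h2] at l1 l2 l3
    simp only at l1 l2 l3
    by_cases h3 : j = H
    · have e : extend m H T π ℓ (i, p, s, j) = (0, p, false, H + 1) := by
        simp only [extend]; rw [if_neg h0, if_neg h1, if_pos h2, if_pos h3]
      rw [e]
      refine ⟨?_, ?_, ?_⟩
      · simp only [Valid]; grind (splits := 60)
      · simp only [extend]
        rw [if_neg (by omega), if_pos trivial, h2, h3]
      · simp only [Ad, Rel]; grind (splits := 60)
    have hj : j < H := by simp only [Valid] at hv; grind (splits := 60)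
    by_cases h4 : j % 2 = 0
    · have e : extend m H T π ℓ (i, p, s, j) = (i, p, s, j + 1) := by
        simp only [extend]; rw [if_neg h0, if_neg h1, if_pos h2, if_neg h3, if_pos h4]
      rw [e]
      refine ⟨?_, ?_, ?_⟩
      · simp only [Valid]; grind (splits := 60)
      · simp only [extend]
        rw [if_neg (by omega), if_neg (by omega), if_pos h2, if_neg (by omega), if_neg (by omega)]
        rfl
      · simp only [Ad, Rel]; grind (splits := 60)
    · have e : extend m H T π ℓ (i, p, s, j) = (i, p, s, j - 1) := by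
        simp only [extend]; rw [if_neg h0, if_neg h1, if_pos h2, if_neg h3, if_neg h4]
      rw [e]
      refine ⟨?_, ?_, ?_⟩
      · simp only [Valid]; grind (splits := 60)
      · simp only [extend]
        rw [if_neg (by grind), if_neg (by omega), if_pos h2, if_neg (by omega), if_pos (by omega)]
        grind (splits := 60)
      · simp only [Ad, Rel]; grind (splits := 60)
  by_cases h3 : j = 0
  · have hT : ¬ T i s := by tauto
    have hi : i < n := by simp only [Valid] at hv; grind (splits := 60)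
    by_cases h4 : p % 2 = 0
    · have e : extend m H T π ℓ (i, p, s, j) = (i, p - 1, s, 0) := by
        simp only [extend]; rw [if_neg h0, if_neg h1, if_neg h2, if_pos h3, if_pos h4]
      rw [e]
      refine ⟨?_, ?_, ?_⟩
      · simp only [Valid]; grind (splits := 60)
      · simp only [extend]
        rw [if_neg (by grind), if_neg (by omega), show (p - 1 - 1) / 2 = (p - 1) / 2 by omega,
          if_neg h2, if_pos trivial, if_neg (by omega)]
        grind (splits := 60)
      · simp only [Ad, Rel]; grind (splits := 60)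
    · have e : extend m H T π ℓ (i, p, s, j) = (i, p + 1, s, 0) := by
        simp only [extend]; rw [if_neg h0, if_neg h1, if_neg h2, if_pos h3, if_neg h4]
      rw [e]
      refine ⟨?_, ?_, ?_⟩
      · simp only [Valid]; grind (splits := 60)
      · simp only [extend]
        rw [if_neg (by grind), if_neg (by omega), show (p + 1 - 1) / 2 = (p - 1) / 2 by omega,
          if_neg h2, if_pos trivial, if_pos (by omega)]
        grind (splits := 60)
      · simp only [Ad, Rel]; grind (splits := 60)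
  have hj : j ≤ H ∧ i < n ∧ occ ((p - 1) / 2) s i := by simp only [Valid] at hv; grind (splits := 60)
  by_cases h4 : j % 2 = 0
  · have e : extend m H T π ℓ (i, p, s, j) = (i, p, s, j - 1) := by
      simp only [extend]; rw [if_neg h0, if_neg h1, if_neg h2, if_neg h3, if_pos h4]
    rw [e]
    refine ⟨?_, ?_, ?_⟩
    · simp only [Valid]; grind (splits := 60)
    · simp only [extend]
      rw [if_neg (by omega), if_neg (by omega), if_neg h2, if_neg (by omega), if_neg (by omega)]
      grind (splits := 60)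
    · simp only [Ad, Rel]; grind (splits := 60)
  · have e : extend m H T π ℓ (i, p, s, j) = (i, p, s, j + 1) := by
      simp only [extend]; rw [if_neg h0, if_neg h1, if_neg h2, if_neg h3, if_neg h4]
    rw [e]
    refine ⟨?_, ?_, ?_⟩
    · simp only [Valid]; grind (splits := 60)
    · simp only [extend]
      rw [if_neg (by omega), if_neg (by omega), if_neg h2, if_neg (by omega), if_pos (by omega)]
      grind (splits := 60)
    · simp only [Ad, Rel]; grind (splits := 60)

theorem exists_pm (hH : 1 ≤ H) (hHe : H % 2 = 0) (hne : ∀ c < m, ∃ s i, occ c s i ∧ i < n) :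
    ∃ μ, PM n m H occ μ := by
  choose! s i hsi using hne
  refine ⟨_, extend_pm hH hHe (fun _ _ => False)
    (fun v => if v.2.1 = 0 then (if v.1 = 0 then n - 1 else v.1 - 1, 2 * m + 1, false, 0)
      else (if v.1 + 1 = n then 0 else v.1 + 1, 0, false, 0))
    (fun c => (s c, i c)) (fun c hc => ⟨(hsi c hc).1, (hsi c hc).2, id⟩) ?_⟩
  rintro ⟨i, p, s, j⟩ hv hj hp
  simp only [Valid, Ad, Rel] at *
  by_cases h : p = 0
  · simp only [h, if_true]; grind (splits := 60)
  · simp only [h, if_false]; grind (splits := 60)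

theorem complete_core (hH : 1 ≤ H) (hHe : H % 2 = 0) (hn : 1 ≤ n) (hm : 1 ≤ m) (τ : ℕ → Bool)
    (hτ : ∀ c < m, ∃ s i, occ c s i ∧ i < n ∧ τ i = s) :
    ∃ μ, PM n m H occ μ ∧ ∃ f : ℕ → W, Set.InjOn f {t | t < n * (2 * m + 2)} ∧
      f (n * (2 * m + 2)) = f 0 ∧
      (∀ t < n * (2 * m + 2), Valid n m H occ (f t) ∧ Ad n m H (f t) (f (t + 1))) ∧
      ∀ t < n * (2 * m + 2), ∃ s < n * (2 * m + 2), s(f s, f (s + 1)) = s(f t, μ (f t)) := by
  choose! s i hsi using hτ
  let sg : ℕ → ℕ → Bool := fun i p => if p = 0 ∨ p = 2 * m + 1 then false else !τ i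
  let π : W → W := fun v => if v.2.1 % 2 = 0 then (v.1, v.2.1 + 1, sg v.1 (v.2.1 + 1), 0)
    else (v.1, v.2.1 - 1, sg v.1 (v.2.1 - 1), 0)
  let T : ℕ → Bool → Prop := fun i s => s = !τ i
  refine ⟨_, extend_pm hH hHe T π (fun c => (s c, i c))
    (fun c hc => ⟨(hsi c hc).1, (hsi c hc).2.1, by simp [T, ← (hsi c hc).2.2]⟩) ?_, ?_⟩
  · rintro ⟨i, p, s, j⟩ hv hj hp
    simp only [Valid, Ad, Rel, π, T, sg] at *
    by_cases h : p % 2 = 0
    · simp only [h, if_true]; grind (splits := 60)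
    · simp only [h, if_false]; grind (splits := 60)
  set R := 2 * m + 2 with hR
  have hR0 : 0 < R := by omega
  let g : ℕ → W := fun t => (t / R, t % R, sg (t / R) (t % R), 0)
  have hN : 0 < n * R := Nat.mul_pos hn hR0
  have hdiv : ∀ t < n * R, t / R < n := fun t ht => (Nat.div_lt_iff_lt_mul hR0).2 ht
  have hmod : ∀ t, t % R < R := fun t => Nat.mod_lt _ hR0
  have hsucc : ∀ t, t % R + 1 < R → (t + 1) / R = t / R ∧ (t + 1) % R = t % R + 1 := by
    intro t ht
    have := Nat.div_add_mod t R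
    exact (Nat.div_mod_unique hR0).2 ⟨by omega, ht⟩
  have hsucc' : ∀ t, t % R + 1 = R → (t + 1) / R = t / R + 1 ∧ (t + 1) % R = 0 := by
    intro t ht
    have := Nat.div_add_mod t R
    exact (Nat.div_mod_unique hR0).2 ⟨by rw [Nat.mul_add]; omega, hR0⟩
  have hlast : ∀ t, t + 1 = n * R → t % R + 1 = R ∧ t / R + 1 = n := by
    intro t ht
    have h1 : (t + 1) % R = 0 := by rw [ht]; simp
    have h2 : (t + 1) / R = n := by rw [ht]; exact Nat.mul_div_cancel _ hR0
    have h3 := hmod t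
    by_cases h : t % R + 1 < R
    · have := hsucc t h; omega
    · have := hsucc' t (by omega); omega
  have hf : ∀ t < n * R, g (t % (n * R)) = g t := fun t ht => by rw [Nat.mod_eq_of_lt ht]
  have hπg : ∀ t, extend m H T π (fun c => (s c, i c)) (g t) = π (g t) := by
    intro t
    refine if_pos ⟨rfl, ?_⟩
    simp only [g, T, sg]; grind (splits := 60)
  refine ⟨fun t => g (t % (n * R)), fun a ha b hb hab => ?_, by simp, fun t ht => ?_,
    fun t ht => ?_⟩
  · simp only [hf a ha, hf b hb, g, Prod.mk.injEq] at hab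
    rw [← Nat.div_add_mod a R, ← Nat.div_add_mod b R, hab.1, hab.2.1]
  · have h1 := hdiv t ht
    have h2 := hmod t
    simp only [hf t ht]
    refine ⟨by simp only [g, Valid, sg]; grind, ?_⟩
    by_cases hl : t + 1 = n * R
    · have := hlast t hl
      rw [hl, Nat.mod_self]
      simp only [g, Ad, Rel, Nat.zero_div, Nat.zero_mod]; grind (splits := 60)
    · rw [hf _ (by omega)]
      by_cases h : t % R + 1 < R
      · obtain ⟨e1, e2⟩ := hsucc t h
        simp only [g, Ad, Rel, e1, e2, sg]; grind (splits := 60)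
      · obtain ⟨e1, e2⟩ := hsucc' t (by omega)
        simp only [g, Ad, Rel, e1, e2, sg]; grind (splits := 60)
  · have h2 := hmod t
    simp only [hf t ht, hπg]
    by_cases h : t % R % 2 = 0
    · obtain ⟨e1, e2⟩ := hsucc t (by omega)
      have hl : t + 1 ≠ n * R := fun hl => by have := hlast t hl; omega
      refine ⟨t, ht, ?_⟩
      rw [hf t ht, hf _ (by omega)]
      simp only [π, g, h, if_true, e1, e2]
    · have ht0 : t ≠ 0 := by rintro rfl; simp at h
      obtain ⟨u, rfl⟩ := Nat.exists_eq_succ_of_ne_zero ht0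
      have h3 := hmod u
      have hu : u % R + 1 < R := by
        by_contra hc
        have := hsucc' u (by omega)
        rw [Nat.succ_eq_add_one] at h; omega
      obtain ⟨e1, e2⟩ := hsucc u hu
      refine ⟨u, by omega, ?_⟩
      rw [hf u (by omega), hf _ ht, Sym2.eq_swap]
      rw [Nat.succ_eq_add_one] at h ⊢
      simp only [π, g, h, if_false]
      simp only [e1, e2, Nat.add_sub_cancel]

end

end Pool.Agent.P.MP_cb63a5_lc
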