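import Pool.Agent.P.MP_cb63a5_lc.Comb
import Pool.Agent.P.MP_cb63a5_lc.Gadget
import Pool.Agent.Lib.NP.SatNat

/-! NP-hardness of the shortest alternating cycle problem. -/

namespace Pool.Agent.P.MP_cb63a5_lc

open Pool.Agent.Lib.NP N487b59b3 N68a2faeb N793a5b8e

section listGraph

variable {α : Type} (vs : List α) (ad : α → α → Bool) (hs : ∀ u v, ad u v = true → ad v u = true)
  (hi : ∀ u, ¬ ad u u = true)

/-- The graph on the positions of a list. -/
def listGraph : SimpleGraph (Fin vs.length) where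
  Adj i j := ad (vs.get i) (vs.get j) = true
  symm := ⟨fun _ _ h => hs _ _ h⟩
  loopless := ⟨fun _ h => hi _ h⟩

theorem adjMatrix_listGraph :
    adjMatrix (listGraph vs ad hs hi) = vs.map fun u => vs.map fun v => ad u v := by
  unfold adjMatrix
  apply List.ext_getElem (by simp)
  intro i h1 h2
  apply List.ext_getElem (by simp)
  intro j h3 h4
  simp [listGraph]

theorem listGraph_iff (hnd : vs.Nodup) (L : ℕ) (μ0 : α → α)
    (h0 : ∀ v ∈ vs, μ0 v ∈ vs ∧ μ0 (μ0 v) = v ∧ ad v (μ0 v) = true) :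
    HasShortAltCycle (listGraph vs ad hs hi) L ↔
      ∃ μ : α → α, (∀ v ∈ vs, μ v ∈ vs ∧ μ (μ v) = v ∧ ad v (μ v) = true) ∧
        ∃ (N : ℕ) (f : ℕ → α), N ≤ L ∧ 3 ≤ N ∧ Set.InjOn f {t | t < N} ∧ f N = f 0 ∧
          (∀ t < N, f t ∈ vs ∧ ad (f t) (f (t + 1)) = true) ∧
          ∀ t < N, ∃ s < N, s(f s, f (s + 1)) = s(f t, μ (f t)) := by
  classical
  have ginj : Function.Injective vs.get := List.nodup_iff_injective_get.1 hnd
  have hidx : ∀ v ∈ vs, ∃ i, vs.get i = v := fun v hv => List.mem_iff_get.1 hv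
  have lift : ∀ μ : α → α, (∀ v ∈ vs, μ v ∈ vs ∧ μ (μ v) = v ∧ ad v (μ v) = true) →
      ∃ ν : Fin vs.length → Fin vs.length, IsM (listGraph vs ad hs hi) ν ∧ free ν = 0 ∧
        ∀ i, vs.get (ν i) = μ (vs.get i) := by
    intro μ hμ
    choose ν hν using fun i => hidx _ (hμ _ (List.get_mem vs i)).1
    refine ⟨ν, fun i => ⟨ginj ?_, fun _ => ?_⟩, ?_, hν⟩
    · rw [hν, hν, (hμ _ (List.get_mem vs i)).2.1]
    · change ad _ _ = true
      rw [hν]; exact (hμ _ (List.get_mem vs i)).2.2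
    · rw [free, Set.ncard_eq_zero, Set.eq_empty_iff_forall_notMem]
      intro i hfix
      have := (hμ _ (List.get_mem vs i)).2.2
      rw [← hν, show ν i = i from hfix] at this
      exact hi _ this
  rw [yes_iff_comb]
  constructor
  · rintro ⟨ν, hν, hmax, N, f, hL, h3, hinj, hN, hadj, halt⟩
    obtain ⟨ν0, a1, a2, -⟩ := lift μ0 h0
    have hfree : ∀ i, ν i ≠ i := by
      have := hmax ν0 a1
      rw [a2, Nat.le_zero, free, Set.ncard_eq_zero, Set.eq_empty_iff_forall_notMem] at this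
      exact this
    let μ : α → α := fun v => if h : v ∈ vs then vs.get (ν (hidx v h).choose) else v
    have hμ : ∀ i, μ (vs.get i) = vs.get (ν i) := by
      intro i
      have h := List.get_mem vs i
      simp only [μ, dif_pos h]
      rw [ginj (hidx _ h).choose_spec]
    refine ⟨μ, fun v hv => ?_, N, fun t => vs.get (f t), hL, h3, fun a ha b hb hab =>
      hinj ha hb (ginj hab), by simp only [hN], fun t ht => ⟨List.get_mem _ _, hadj t ht⟩,
      fun t ht => ?_⟩
    · obtain ⟨i, rfl⟩ := hidx v hv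
      rw [hμ, hμ, (hν i).1]
      exact ⟨List.get_mem _ _, rfl, (hν i).2 (hfree i)⟩
    · obtain ⟨s, hs, hs'⟩ := halt t ht
      refine ⟨s, hs, ?_⟩
      have := congrArg (Sym2.map vs.get) hs'
      simpa only [Sym2.map_mk, hμ] using this
  · rintro ⟨μ, hμ, N, f, hL, h3, hinj, hN, hadj, halt⟩
    obtain ⟨ν, a1, a2, a3⟩ := lift μ hμ
    have hmem : ∀ t, ∃ i, t ≤ N → vs.get i = f t := by
      intro t
      by_cases ht : t < N
      · obtain ⟨i, hi⟩ := hidx _ (hadj t ht).1
        exact ⟨i, fun _ => hi⟩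
      · obtain ⟨i, hi⟩ := hidx _ (hadj 0 (by omega)).1
        exact ⟨i, fun h => by rw [hi, show t = N by omega, hN]⟩
    choose g hg using hmem
    refine ⟨ν, a1, fun _ _ => by omega, N, g, hL, h3, fun a ha b hb hab => hinj ha hb ?_,
      ginj (by rw [hg N le_rfl, hg 0 (by omega), hN]), fun t ht => ?_, fun t ht => ?_⟩
    · rw [← hg a (le_of_lt ha), ← hg b (le_of_lt hb), hab]
    · change ad _ _ = true
      rw [hg t ht.le, hg (t + 1) ht]; exact (hadj t ht).2
    · obtain ⟨s, hs, hs'⟩ := halt t ht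
      refine ⟨s, hs, Sym2.map.injective ginj ?_⟩
      simp only [Sym2.map_mk]
      rw [a3, hg s hs.le, hg (s + 1) hs, hg t ht.le, hs']

end listGraph

/-! ### The reduction -/

def nv (φ : CNF ℕ) : ℕ := (φ.flatten.map fun l => l.2).sum + 1

def cls (φ : CNF ℕ) : CNF ℕ := φ ++ (List.range (nv φ)).map fun i => [(true, i), (false, i)]

def ringLen (φ : CNF ℕ) : ℕ := nv φ * (2 * (cls φ).length + 2)

def occ (φ : CNF ℕ) (c : ℕ) (s : Bool) (i : ℕ) : Prop := (s, i) ∈ (cls φ).getD c []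

def validB (n m H : ℕ) (ψ : CNF ℕ) (v : W) : Bool :=
  (v.2.2.2 == 0 && decide (v.1 < n) && decide (v.2.1 < 2 * m + 2) &&
    (!(v.2.1 == 0 || v.2.1 == 2 * m + 1) || !v.2.2.1)) ||
  (decide (1 ≤ v.2.2.2) && decide (v.2.2.2 ≤ H) && decide (v.1 < n) && decide (1 ≤ v.2.1) &&
    decide (v.2.1 ≤ 2 * m) && decide ((v.2.2.1, v.1) ∈ ψ.getD ((v.2.1 - 1) / 2) [])) ||
  (v.2.2.2 == H + 1 && v.1 == 0 && decide (1 ≤ v.2.1) && decide (v.2.1 ≤ 2 * m) && !v.2.2.1)

def relB (n m H : ℕ) (u v : W) : Bool :=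
  (u.2.2.2 == 0 && v.2.2.2 == 0 && v.1 == u.1 && v.2.1 == u.2.1 + 1 &&
    (u.2.2.1 == v.2.2.1 || u.2.1 == 0 || v.2.1 == 2 * m + 1)) ||
  (u.2.2.2 == 0 && v.2.2.2 == 0 && u.2.1 == 2 * m + 1 && v.2.1 == 0 &&
    (v.1 == u.1 + 1 || (u.1 + 1 == n && v.1 == 0))) ||
  (v.1 == u.1 && v.2.1 == u.2.1 && v.2.2.1 == u.2.2.1 && v.2.2.2 == u.2.2.2 + 1 &&
    decide (u.2.2.2 < H)) ||
  (u.2.2.2 == H && v.2.2.2 == H + 1 && v.2.1 == u.2.1)

def adB (n m H : ℕ) (u v : W) : Bool := relB n m H u v || relB n m H v u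

theorem validB_iff (φ : CNF ℕ) (n m H : ℕ) (v : W) :
    validB n m H (cls φ) v = true ↔ Valid n m H (occ φ) v := by
  simp only [validB, Valid, occ, Bool.or_eq_true, Bool.and_eq_true, beq_iff_eq, decide_eq_true_eq,
    Bool.not_eq_true', and_assoc, or_assoc, Bool.or_eq_false_iff, beq_eq_false_iff_ne]
  refine or_congr_left (and_congr_right fun _ => and_congr_right fun _ =>
    and_congr_right fun _ => ?_)
  grind

theorem adB_iff (n m H : ℕ) (u v : W) : adB n m H u v = true ↔ Ad n m H u v := by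
  simp only [adB, relB, Ad, Rel, Bool.or_eq_true, Bool.and_eq_true, beq_iff_eq, decide_eq_true_eq,
    and_assoc, or_assoc]

def verts (φ : CNF ℕ) : List W :=
  (List.range (nv φ) ×ˢ List.range (2 * (cls φ).length + 2) ×ˢ [false, true] ×ˢ
    List.range (2 * ringLen φ + 2)).filter (validB (nv φ) (cls φ).length (2 * ringLen φ) (cls φ))

theorem verts_nodup (φ : CNF ℕ) : (verts φ).Nodup :=
  (List.nodup_range.product (List.nodup_range.product
    ((show [false, true].Nodup by simp).product List.nodup_range))).filter _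

theorem nv_pos (φ : CNF ℕ) : 1 ≤ nv φ := by simp [nv]

theorem cls_pos (φ : CNF ℕ) : 1 ≤ (cls φ).length := by
  have := nv_pos φ
  simp [cls]; omega

theorem ringLen_pos (φ : CNF ℕ) : 4 ≤ ringLen φ := by
  have h1 := nv_pos φ
  have h2 := cls_pos φ
  unfold ringLen; nlinarith

theorem mem_verts (φ : CNF ℕ) (v : W) :
    v ∈ verts φ ↔ Valid (nv φ) (cls φ).length (2 * ringLen φ) (occ φ) v := by
  rcases v with ⟨i, p, s, j⟩
  rw [verts, List.mem_filter, validB_iff, and_iff_right_iff_imp]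
  intro h
  have := nv_pos φ
  simp only [List.mem_product, List.mem_range, Valid] at h ⊢
  refine ⟨by omega, by omega, by cases s <;> simp, by omega⟩

theorem var_lt (φ : CNF ℕ) {c : List (Bool × ℕ)} (hc : c ∈ cls φ) {l : Bool × ℕ} (hl : l ∈ c) :
    l.2 < nv φ := by
  rcases List.mem_append.1 hc with hc | hc
  · have : l.2 ∈ φ.flatten.map fun l => l.2 :=
      List.mem_map.2 ⟨l, List.mem_flatten.2 ⟨c, hc, hl⟩, rfl⟩
    exact Nat.lt_succ_of_le (List.le_sum_of_mem this)
  · obtain ⟨i, hi, rfl⟩ := List.mem_map.1 hc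
    simp only [List.mem_cons, List.not_mem_nil, or_false] at hl
    rcases hl with rfl | rfl <;> simpa using hi

theorem getD_mem (φ : CNF ℕ) {c : ℕ} (hc : c < (cls φ).length) : (cls φ).getD c [] ∈ cls φ := by
  simp [hc]

theorem sat_iff_occ (φ : CNF ℕ) :
    φ.Sat ↔ ∃ τ : ℕ → Bool, ∀ c < (cls φ).length, ∃ s i, occ φ c s i ∧ τ i = s := by
  refine exists_congr fun τ => ⟨fun h c hc => ?_, fun h c hc => ?_⟩
  · rcases List.mem_append.1 (getD_mem φ hc) with h1 | h1
    · obtain ⟨l, hl, hl'⟩ := h _ h1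
      exact ⟨l.1, l.2, hl, hl'⟩
    · obtain ⟨i, -, h2⟩ := List.mem_map.1 h1
      refine ⟨τ i, i, ?_, rfl⟩
      rw [occ, ← h2]
      cases τ i <;> simp
  · obtain ⟨k, hk, rfl⟩ := List.getElem_of_mem hc
    have hk' : k < (cls φ).length := by simp [cls]; omega
    obtain ⟨s, i, h1, h2⟩ := h k hk'
    refine ⟨(s, i), ?_, h2⟩
    simpa [occ, cls, List.getElem?_append_left hk, hk] using h1

theorem taut (φ : CNF ℕ) : ∀ i < nv φ, ∃ c < (cls φ).length, ∀ s i', occ φ c s i' → i' = i := by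
  intro i hi
  refine ⟨φ.length + i, by simp [cls, hi], fun s i' h => ?_⟩
  simp [occ, cls, hi] at h
  tauto

/-- The graph of the reduction. -/
def gadget (φ : CNF ℕ) : SimpleGraph (Fin (verts φ).length) :=
  listGraph (verts φ) (adB (nv φ) (cls φ).length (2 * ringLen φ))
    (fun _ _ h => (adB_iff _ _ _ _ _).2 ((adB_iff _ _ _ _ _).1 h).symm)
    (fun u h => Ad.irrefl u ((adB_iff _ _ _ _ _).1 h))

theorem gadget_iff (φ : CNF ℕ) (hφ : [] ∉ φ) :
    φ.Sat ↔ HasShortAltCycle (gadget φ) (ringLen φ) := by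
  have h4 := ringLen_pos φ
  have hne : ∀ c < (cls φ).length, ∃ s i, occ φ c s i ∧ i < nv φ := by
    intro c hc
    have h1 := getD_mem φ hc
    have h2 : (cls φ).getD c [] ≠ [] := by
      intro h
      rw [h] at h1
      rcases List.mem_append.1 h1 with h1 | h1
      · exact hφ h1
      · simp at h1
    obtain ⟨l, hl⟩ := List.exists_mem_of_ne_nil _ h2
    exact ⟨l.1, l.2, hl, var_lt φ h1 hl⟩
  obtain ⟨μ0, h0⟩ := exists_pm (H := 2 * ringLen φ) (by omega) (by omega) hne
  rw [gadget, listGraph_iff _ _ _ _ (verts_nodup φ) _ μ0 (by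
    simpa only [mem_verts, adB_iff, PM] using h0), sat_iff_occ]
  simp only [mem_verts, adB_iff]
  constructor
  · rintro ⟨τ, hτ⟩
    obtain ⟨μ, hμ, f, h1, h2, h3, h5⟩ := complete_core (H := 2 * ringLen φ) (occ := occ φ)
      (by omega) (by omega) (nv_pos φ) (cls_pos φ) τ fun c hc => by
        obtain ⟨s, i, a1, a2⟩ := hτ c hc
        exact ⟨s, i, a1, var_lt φ (getD_mem φ hc) a1, a2⟩
    exact ⟨μ, hμ, ringLen φ, f, le_rfl, by omega, h1, h2, h3, h5⟩
  · rintro ⟨μ, hμ, N, f, hL, h3, hinj, hN, hadj, halt⟩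
    have hsucc : ∀ s < N, ∃ t < N, f t = f (s + 1) := by
      intro s hs
      by_cases h : s + 1 < N
      · exact ⟨_, h, rfl⟩
      · exact ⟨0, by omega, by rw [show s + 1 = N by omega, hN]⟩
    refine sound_core (H := 2 * ringLen φ) (by omega) (by omega) (cls_pos φ) (taut φ) hμ
      (fun v => ∃ t < N, f t = v) ?_ ?_ ?_ ⟨f 0, 0, by omega, rfl⟩ ?_
    · rintro _ ⟨t, ht, rfl⟩; exact (hadj t ht).1
    · rintro _ ⟨t, ht, rfl⟩
      obtain ⟨s, hs, hs'⟩ := halt t ht
      rcases Sym2.eq_iff.1 hs' with ⟨-, h⟩ | ⟨h, -⟩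
      · rw [← h]; exact hsucc s hs
      · exact ⟨s, hs, h⟩
    · rintro _ ⟨t, ht, rfl⟩
      rcases t with _ | t
      · refine ⟨f 1, f (N - 1), ⟨1, by omega, rfl⟩, ⟨N - 1, by omega, rfl⟩, fun h => ?_,
          (hadj 0 ht).2, ?_⟩
        · have := hinj (show 1 < N by omega) (show N - 1 < N by omega) h
          omega
        · have := (hadj (N - 1) (by omega)).2
          rw [show N - 1 + 1 = N by omega, hN] at this
          exact this.symm
      · refine ⟨f (t + 1 + 1), f t, hsucc _ ht, ⟨t, by omega, rfl⟩, fun h => ?_,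
          (hadj _ ht).2, (hadj t (by omega)).2.symm⟩
        by_cases h' : t + 1 + 1 < N
        · have := hinj h' (show t < N by omega) h
          omega
        · rw [show t + 1 + 1 = N by omega, hN] at h
          have := hinj (show 0 < N by omega) (show t < N by omega) h
          omega
    · intro i p s h
      choose! g hg using h
      have := Finset.card_le_card_of_injOn (s := Finset.Icc 1 (2 * ringLen φ))
        (t := Finset.range N) g (fun j hj => by
          simp only [Finset.coe_Icc, Set.mem_Icc] at hj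
          simpa using (hg j hj.1 hj.2).1) (fun a ha b hb hab => by
          simp only [Finset.coe_Icc, Set.mem_Icc] at ha hb
          have := (hg a ha.1 ha.2).2.symm.trans (hab ▸ (hg b hb.1 hb.2).2)
          simpa using this)
      simp at this; omega

theorem ringLen_le (φ : CNF ℕ) : ringLen φ ≤ (verts φ).length := by
  classical
  have := Finset.card_le_card_of_injOn
    (s := Finset.range (nv φ) ×ˢ Finset.range (2 * (cls φ).length + 2))
    (t := (verts φ).toFinset) (fun x => (x.1, x.2, false, 0)) (fun x hx => by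
      simp only [Finset.coe_product, Finset.coe_range, Set.mem_prod, Set.mem_Iio] at hx
      simp only [List.coe_toFinset, Set.mem_ofPred_eq, mem_verts, Valid]
      exact Or.inl ⟨trivial, hx.1, hx.2, fun _ => trivial⟩)
    (fun a _ b _ hab => by simpa [Prod.ext_iff] using hab)
  rw [List.toFinset_card_of_nodup (verts_nodup φ)] at this
  simpa [ringLen] using this

theorem adjMatrix_inj {n n' : ℕ} {G : SimpleGraph (Fin n)} {G' : SimpleGraph (Fin n')}
    (h : adjMatrix G = adjMatrix G') : ∃ e : n = n', e ▸ G = G' := by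
  obtain rfl : n = n' := by simpa [adjMatrix] using congrArg List.length h
  refine ⟨rfl, ?_⟩
  ext i j
  have := congrFun (List.ofFn_injective (congrFun (List.ofFn_injective h) i)) j
  simpa using this

theorem SAC_encode {n : ℕ} (G : SimpleGraph (Fin n)) (L : ℕ) :
    SAC (bitEncode (adjMatrix G, L)) = true ↔ 0 < L ∧ L ≤ n ∧ HasShortAltCycle G L := by
  simp only [SAC, decide_eq_true_eq]
  constructor
  · rintro ⟨n', G', L', h1, h2⟩
    obtain ⟨h3, rfl⟩ := Prod.mk.inj (bitEncode_injective h1)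
    obtain ⟨rfl, rfl⟩ := adjMatrix_inj h3
    exact h2
  · exact fun h => ⟨n, G, L, rfl, h⟩

/-- The output string of the reduction. -/
def red (φ : CNF ℕ) : List Bool :=
  delimit (enc ((verts φ).map fun u => (verts φ).map fun v =>
    adB (nv φ) (cls φ).length (2 * ringLen φ) u v)) ++ Computability.encodeNat (ringLen φ)

theorem pt_red : PT red := by
  have h1 : PT nv := by unfold nv; fun_prop
  have h2 : PT cls := by unfold cls; fun_prop
  have h3 : PT ringLen := by unfold ringLen; fun_prop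
  have h4 : PT verts := by unfold verts validB; fun_prop
  unfold red adB relB
  fun_prop

theorem red_eq (φ : CNF ℕ) : red φ = bitEncode (adjMatrix (gadget φ), ringLen φ) := by
  rw [gadget, adjMatrix_listGraph]; rfl

theorem sac_hard : ∀ L ∈ NP, ManyOneReducible L SAC := by
  refine NPHardPT.manyOne (sat_nat.reduce (g := fun φ => red (noEmpty φ))
    (pt_red.comp (by fun_prop)) fun φ => ?_)
  have := ringLen_pos (noEmpty φ)
  rw [red_eq, SAC_encode, sat_noEmpty, gadget_iff _ (nil_notMem_noEmpty φ)]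
  exact ⟨fun h => ⟨by omega, ringLen_le _, h⟩, fun h => h.2.2⟩

end Pool.Agent.P.MP_cb63a5_lc
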