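import Pool.Agent.P.MP_cb63a5_lc.Berge
import Pool.Agent.Lib.NP.Dec

/-! The shortest alternating cycle problem lies in NP. -/

namespace Pool.Agent.P.MP_cb63a5_lc

open Pool.Agent.Lib.NP N487b59b3 N68a2faeb Polynomial

def ent (A : List (List Bool)) (i j : ℕ) : Bool := (A.getD i []).getD j false

def cyc (f : List ℕ) (t : ℕ) : ℕ := f.getD (t % f.length) 0

def chkGraph (A : List (List Bool)) : Bool :=
  (List.range A.length).all fun i => (A.getD i []).length == A.length && !ent A i i &&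
    (List.range A.length).all fun j => !ent A i j || ent A j i

def chkM (A : List (List Bool)) (m : List ℕ) : Bool :=
  (List.range A.length).all fun i => decide (m.getD i 0 < A.length) &&
    m.getD (m.getD i 0) 0 == i && (m.getD i 0 == i || ent A i (m.getD i 0))

def chkCert (A : List (List Bool)) (m l : List ℕ) : Bool :=
  ((List.range A.length).all fun i => (List.range A.length).all fun j =>
    !ent A i j || decide (A.length ≤ l.getD i 0) || decide (A.length ≤ l.getD j 0) ||
      l.getD i 0 == l.getD j 0) &&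
  decide (((List.range A.length).countP fun i => m.getD i 0 == i) +
    ((List.range A.length).countP fun i => decide (A.length ≤ l.getD i 0)) ≤
    (List.range A.length).countP fun k =>
      ((List.range A.length).countP fun i => l.getD i 0 == k) % 2 == 1)

def chkCyc (A : List (List Bool)) (m f : List ℕ) : Bool :=
  decide (3 ≤ f.length) && (List.range f.length).all fun t =>
    decide (cyc f t < A.length) && ent A (cyc f t) (cyc f (t + 1)) &&
    ((List.range f.length).all fun s => !(cyc f s == cyc f t) || s == t) &&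
    (List.range f.length).any fun s =>
      (cyc f s == cyc f t && cyc f (s + 1) == m.getD (cyc f t) 0) ||
      (cyc f s == m.getD (cyc f t) 0 && cyc f (s + 1) == cyc f t)

abbrev Wit := List (List Bool) × ℕ × List ℕ × List ℕ × List ℕ

def chk (x : List Bool) (t : Wit) : Bool :=
  x == delimit (enc t.1) ++ Computability.encodeNat t.2.1 && chkGraph t.1 &&
    decide (0 < t.2.1) && decide (t.2.1 ≤ t.1.length) && decide (t.2.2.2.1.length ≤ t.2.1) &&
    chkM t.1 t.2.2.1 && chkCert t.1 t.2.2.1 t.2.2.2.2 && chkCyc t.1 t.2.2.1 t.2.2.2.1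

theorem pt_chk : PT (fun p : List Bool × Wit => chk p.1 p.2) := by
  unfold chk chkGraph chkM chkCert chkCyc ent cyc
  fun_prop

theorem length_adjMatrix {n : ℕ} (G : SimpleGraph (Fin n)) : (adjMatrix G).length = n := by
  simp [adjMatrix]

theorem ent_adjMatrix {n : ℕ} (G : SimpleGraph (Fin n)) (i j : Fin n) :
    ent (adjMatrix G) i j = true ↔ G.Adj i j := by
  simp [ent, adjMatrix]

theorem chkGraph_adjMatrix {n : ℕ} (G : SimpleGraph (Fin n)) : chkGraph (adjMatrix G) = true := by
  simp only [chkGraph, length_adjMatrix, List.all_eq_true, List.mem_range, Bool.and_eq_true,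
    beq_iff_eq, Bool.not_eq_true', Bool.or_eq_true]
  intro i hi
  refine ⟨⟨by simp [adjMatrix, hi], ?_⟩, fun j hj => ?_⟩
  · rw [← Bool.not_eq_true, ent_adjMatrix G ⟨i, hi⟩ ⟨i, hi⟩]; simp
  · rw [← Bool.not_eq_true, ent_adjMatrix G ⟨i, hi⟩ ⟨j, hj⟩, ent_adjMatrix G ⟨j, hj⟩ ⟨i, hi⟩,
      G.adj_comm]
    tauto

theorem exists_graph {A : List (List Bool)} (h : chkGraph A = true) :
    ∃ G : SimpleGraph (Fin A.length), adjMatrix G = A := by
  simp only [chkGraph, List.all_eq_true, List.mem_range, Bool.and_eq_true,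
    beq_iff_eq, Bool.not_eq_true', Bool.or_eq_true] at h
  refine ⟨⟨fun i j => ent A i j = true, ⟨fun i j hij => ?_⟩, ⟨fun i hi => ?_⟩⟩, ?_⟩
  · have := (h i i.2).2 j j.2
    simpa [hij] using this
  · simp [(h i i.2).1.2] at hi
  · unfold adjMatrix
    apply List.ext_getElem (by simp)
    intro i h1 h2
    have h3 : A[i].length = A.length := by simpa [h2] using (h i h2).1.1
    apply List.ext_getElem (by simp [h3])
    intro j h4 h5
    simp [ent, h5]

section

variable {n : ℕ} {G : SimpleGraph (Fin n)} {μ : Fin n → Fin n} {m : List ℕ}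

theorem chkM_of (hm : ∀ i : Fin n, m.getD i 0 = μ i) (hμ : IsM G μ) :
    chkM (adjMatrix G) m = true := by
  simp only [chkM, length_adjMatrix, List.all_eq_true, List.mem_range, Bool.and_eq_true,
    beq_iff_eq, Bool.or_eq_true, decide_eq_true_eq]
  intro i hi
  have e := hm ⟨i, hi⟩
  simp only at e
  rw [e, hm, (hμ _).1, ent_adjMatrix G ⟨i, hi⟩]
  refine ⟨⟨(μ _).2, rfl⟩, ?_⟩
  by_cases h : μ ⟨i, hi⟩ = ⟨i, hi⟩
  · left; rw [h]
  · exact Or.inr ((hμ _).2 h)

theorem of_chkM (h : chkM (adjMatrix G) m = true) :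
    ∃ μ : Fin n → Fin n, (∀ i : Fin n, m.getD i 0 = μ i) ∧ IsM G μ := by
  simp only [chkM, length_adjMatrix, List.all_eq_true, List.mem_range, Bool.and_eq_true,
    beq_iff_eq, Bool.or_eq_true, decide_eq_true_eq] at h
  refine ⟨fun i => ⟨m.getD i 0, (h i i.2).1.1⟩, fun _ => rfl, fun i =>
    ⟨Fin.ext (h i i.2).1.2, fun hne => ?_⟩⟩
  rcases (h i i.2).2 with h1 | h1
  · exact absurd (Fin.ext h1) hne
  · exact (ent_adjMatrix G i ⟨_, (h i i.2).1.1⟩).1 h1

theorem chkCert_iff (hm : ∀ i : Fin n, m.getD i 0 = μ i) {l : List ℕ} {lab : Fin n → Option (Fin n)}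
    (h1 : ∀ i : Fin n, lab i = none ↔ n ≤ l.getD i 0)
    (h2 : ∀ i k : Fin n, lab i = some k ↔ l.getD i 0 = k) :
    chkCert (adjMatrix G) m l = true ↔ Cert G (free μ) lab := by
  simp only [chkCert, length_adjMatrix, List.all_eq_true, List.mem_range, Bool.and_eq_true,
    beq_iff_eq, Bool.or_eq_true, decide_eq_true_eq, Cert, Bool.not_eq_true']
  refine and_congr ⟨fun h a b hab ha hb => ?_, fun h i hi j hj => ?_⟩ ?_
  · have := h a a.2 b b.2
    rw [← Bool.not_eq_true, ent_adjMatrix, ← h1, ← h1] at this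
    obtain ⟨k, hk⟩ := Option.ne_none_iff_exists'.1 hb
    rw [hk, h2, ← (h2 _ _).1 hk]
    tauto
  · rw [← Bool.not_eq_true, ent_adjMatrix G ⟨i, hi⟩ ⟨j, hj⟩, ← h1 ⟨i, hi⟩, ← h1 ⟨j, hj⟩]
    by_contra hc
    push Not at hc
    obtain ⟨k, hk⟩ := Option.ne_none_iff_exists'.1 hc.1.2
    have := h _ _ hc.1.1.1 hc.1.1.2 hc.1.2
    exact hc.2 (((h2 _ _).1 (this.trans hk)).trans ((h2 _ _).1 hk).symm)
  · rw [free, ncard_fin_eq_countP _ (fun i => m.getD i 0 == i) (fun i => by
        rw [hm]; simp [Fin.ext_iff]),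
      ncard_fin_eq_countP _ (fun i => decide (n ≤ l.getD i 0)) (fun i => by simp only [h1]; simp),
      ncard_fin_eq_countP _ (fun k =>
        ((List.range n).countP fun i => l.getD i 0 == k) % 2 == 1) (fun k => by
        rw [ncard_fin_eq_countP _ (fun i => l.getD i 0 == k) (fun i => by simp only [h2]; simp),
          Nat.odd_iff]
        simp)]

theorem chkCyc_iff (hm : ∀ i : Fin n, m.getD i 0 = μ i) {fl : List ℕ} {f : ℕ → Fin n}
    (hf : ∀ t ≤ fl.length, cyc fl t = f t) :
    chkCyc (adjMatrix G) m fl = true ↔ IsAlt G μ fl.length f := by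
  simp only [chkCyc, length_adjMatrix, List.all_eq_true, List.mem_range, Bool.and_eq_true,
    beq_iff_eq, Bool.or_eq_true, decide_eq_true_eq, IsAlt, Bool.not_eq_true', List.any_eq_true,
    beq_eq_false_iff_ne]
  refine and_congr_right fun h3 => ⟨fun h => ⟨fun a ha b hb hab => ?_, ?_, fun t ht => ?_,
    fun t ht => ?_⟩, fun ⟨a1, a2, a3, a4⟩ t ht => ⟨⟨⟨?_, ?_⟩, fun s hs => ?_⟩, ?_⟩⟩
  · have := (h b hb).1.2 a ha
    rw [hf a (le_of_lt ha), hf b (le_of_lt hb), hab] at this
    simpa using this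
  · apply Fin.ext
    rw [← hf _ le_rfl, ← hf 0 (by omega)]
    simp [cyc]
  · have := (h t ht).1.1.2
    rwa [hf t ht.le, hf (t + 1) ht, ent_adjMatrix] at this
  · obtain ⟨s, hs, hs'⟩ := (h t ht).2
    refine ⟨s, hs, ?_⟩
    rw [hf t ht.le, hf s hs.le, hf (s + 1) hs, hm] at hs'
    simpa only [Sym2.eq_iff, Fin.ext_iff] using hs'
  · rw [hf t ht.le]; exact (f t).2
  · rw [hf t ht.le, hf (t + 1) ht, ent_adjMatrix]; exact a3 t ht
  · rw [hf t ht.le, hf s hs.le]
    by_cases h : f s = f t
    · exact Or.inr (a1 hs ht h)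
    · exact Or.inl fun h' => h (Fin.ext h')
  · obtain ⟨s, hs, hs'⟩ := a4 t ht
    refine ⟨s, hs, ?_⟩
    rw [hf t ht.le, hf s hs.le, hf (s + 1) hs, hm]
    simpa only [Sym2.eq_iff, Fin.ext_iff] using hs'

end

theorem chk_sound (x : List Bool) (t : Wit) (h : chk x t = true) : SAC x = true := by
  obtain ⟨A, L, m, fl, l⟩ := t
  simp only [chk, Bool.and_eq_true, beq_iff_eq, decide_eq_true_eq] at h
  obtain ⟨⟨⟨⟨⟨⟨⟨h1, h2⟩, h3⟩, h4⟩, h5⟩, h6⟩, h7⟩, h8⟩ := h
  obtain ⟨G, hG⟩ := exists_graph h2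
  generalize A.length = n at G hG h4
  subst hG
  obtain ⟨μ, hm, hμ⟩ := of_chkM h6
  let lab : Fin n → Option (Fin n) := fun i =>
    if h : l.getD i 0 < n then some ⟨_, h⟩ else none
  have hc := (chkCert_iff hm (lab := lab) (fun i => by
      simp only [lab]
      split_ifs with h
      · simp only [false_iff]; omega
      · simp only [true_iff]; omega)
    (fun i k => by
      simp only [lab]
      split_ifs with h
      · simp only [Option.some.injEq, Fin.ext_iff]
      · have := k.2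
        simp only [false_iff]; omega)).1 h7
  have hlt : ∀ t, cyc fl t < n := by
    intro t
    simp only [chkCyc, length_adjMatrix, List.all_eq_true, List.mem_range, Bool.and_eq_true,
      decide_eq_true_eq] at h8
    have := (h8.2 (t % fl.length) (Nat.mod_lt _ (by omega))).1.1.1
    simpa [cyc] using this
  have ha := (chkCyc_iff hm (f := fun t => ⟨cyc fl t, hlt t⟩) (fun _ _ => rfl)).1 h8
  simp only [SAC, decide_eq_true_eq]
  exact ⟨n, G, L, h1, h3, h4, (yes_iff_comb L).2
    ⟨μ, hμ, fun μ' hμ' => hc.le_free hμ', _, _, h5, ha⟩⟩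

theorem chk_complete (x : List Bool) (h : SAC x = true) :
    ∃ t : Wit, sz t ≤ (20 * (X + 1) ^ 2 : Polynomial ℕ).eval x.length ∧ chk x t = true := by
  simp only [SAC, decide_eq_true_eq] at h
  obtain ⟨n, G, L, hx, h3, h4, h⟩ := h
  obtain ⟨μ, hμ, hmax, N, f, hL, ha⟩ := (yes_iff_comb L).1 h
  obtain ⟨lab, hc⟩ := exists_cert hμ hmax
  have hx' : x = delimit (enc (adjMatrix G)) ++ Computability.encodeNat L := hx
  let m : List ℕ := List.ofFn fun i => (μ i : ℕ)
  let fl : List ℕ := List.ofFn fun t : Fin N => (f t : ℕ)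
  let l : List ℕ := List.ofFn fun i => (lab i).elim n Fin.val
  have hm : ∀ i : Fin n, m.getD i 0 = μ i := fun i => by simp [m]
  have hl : ∀ i : Fin n, l.getD i 0 = (lab i).elim n Fin.val := fun i => by simp [l]
  have hfl : fl.length = N := by simp [fl]
  have hf : ∀ t ≤ fl.length, cyc fl t = f t := by
    intro t ht
    have h3 := ha.1
    rw [hfl] at ht
    rcases ht.lt_or_eq with ht | rfl
    · simp [cyc, fl, Nat.mod_eq_of_lt ht, ht]
    · simp [cyc, fl, ha.2.2.1, show 0 < t by omega]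
  refine ⟨(adjMatrix G, L, m, fl, l), ?_, ?_⟩
  · have e1 : sz (adjMatrix G) ≤ x.length := by rw [hx']; simp [sz]; omega
    have e2 : n ≤ x.length := by
      have := length_le_sz (adjMatrix G)
      rw [length_adjMatrix] at this; omega
    have e3 := sz_list_le m n (fun a ha => by
      obtain ⟨i, rfl⟩ := List.mem_ofFn.1 ha; simp)
    have e4 := sz_list_le fl n (fun a ha => by
      obtain ⟨i, rfl⟩ := List.mem_ofFn.1 ha; simp)
    have e5 := sz_list_le l n (fun a ha => by
      obtain ⟨i, rfl⟩ := List.mem_ofFn.1 ha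
      cases lab i <;> simp)
    rw [show m.length = n by simp [m]] at e3
    rw [show l.length = n by simp [l]] at e5
    rw [hfl] at e4
    have e6 : N * (2 * n + 1) ≤ n * (2 * n + 1) := Nat.mul_le_mul_right _ (by omega)
    have e7 : n * (2 * n + 1) ≤ x.length * (2 * x.length + 1) := Nat.mul_le_mul e2 (by omega)
    simp only [sz_prod, sz_nat, eval_mul, eval_pow, eval_add, eval_X, eval_one, eval_ofNat]
    nlinarith
  · simp only [chk, Bool.and_eq_true, beq_iff_eq, decide_eq_true_eq, length_adjMatrix]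
    refine ⟨⟨⟨⟨⟨⟨⟨hx', chkGraph_adjMatrix G⟩, h3⟩, h4⟩, by omega⟩, chkM_of hm hμ⟩, ?_⟩, ?_⟩
    · refine (chkCert_iff hm (fun i => ?_) (fun i k => ?_)).2 hc
      · rw [hl]; cases lab i <;> simp
      · rw [hl]
        have := k.2
        cases lab i with
        | none => simp; omega
        | some j => simp [Fin.ext_iff]
    · exact (chkCyc_iff hm hf).2 (hfl ▸ ha)

theorem sac_mem_NP : SAC ∈ NP :=
  mem_NP_of_check
    ((HasDec.bool.list.list).prod (HasDec.nat.prod (HasDec.nat.list.prod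
      (HasDec.nat.list.prod HasDec.nat.list))))
    chk pt_chk _ chk_complete chk_sound

end Pool.Agent.P.MP_cb63a5_lc
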